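import Pool.Agent.H85.BC.Basic

/-!
# Row BCT of bcg_modules: a nonspatial isomorphism of complementary corners
-/

set_option autoImplicit false

open scoped InnerProductSpace Topology
open Filter
open Pool.Agent.H85.BC

namespace Pool.Agent.H99.BC

variable {H : Type} [NormedAddCommGroup H] [InnerProductSpace ℂ H] [CompleteSpace H]

theorem pf_BCT (hW : T_W H) (hQB : T_QB H) (hDRC : T_DRC H) (hSCT : T_SCT H)
    (hTZ : T_TZ H) : T_BCT H := by
  intro N ξ hN hUG U p hpN hp hp0 hp1 θ hθ hns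
  have hξ := hN.traceVector
  have hpp : p * p = p := hp.isIdempotentElem.eq
  have hqN : (1 - p : H →L[ℂ] H) ∈ N := sub_mem (one_mem N) hpN
  have hq : IsStarProjection (1 - p : H →L[ℂ] H) := hp.one_sub
  have hq0 : (1 - p : H →L[ℂ] H) ≠ 0 := fun h => hp1 (sub_eq_zero.1 h).symm
  have hpq : p * (1 - p) = 0 := by rw [mul_sub, mul_one, hpp, sub_self]
  have hqp : (1 - p) * p = 0 := by rw [sub_mul, one_mul, hpp, sub_self]
  obtain ⟨E, k, m, hB⟩ := hQB N ξ hN p hpN hp hp0 hp1 θ hθ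
  set P : Set (H →L[ℂ] H) := {y | ∃ x ∈ corner N p, y = x + θ x} with hP
  have hPN : ∀ y ∈ P, y ∈ N := hB.sub
  have hQN : ∀ x ∈ gen P, x ∈ N := fun x hx => gen_le hPN hx
  have hPstar : ∀ y ∈ P, star y ∈ P := hB.star_mem
  -- elements of the corners
  have hθl : ∀ x ∈ corner N p, (1 - p) * θ x = θ x := fun x hx =>
    corner_left hq (hθ.maps x hx)
  -- `p` is not in `Q`
  have hpQ : p ∉ gen P := by
    intro hmem
    have hpξ : 0 < ‖p ξ‖ := hξ.norm_pos_apply hpN hp0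
    have hbd : ∀ x ∈ corner N p, ‖θ x ξ‖ ≤ (‖(1 - p) ξ‖ / ‖p ξ‖) * ‖x ξ‖ := by
      intro x hx
      have h1 := hSCT N ξ hN p hpN hp (1 - p) hqN hq θ hθ x hx
      have h2 : ‖θ x ξ‖ * ‖p ξ‖ ≤ ‖(1 - p) ξ‖ * ‖x ξ‖ := by
        have h3 : (‖θ x ξ‖ * ‖p ξ‖) ^ 2 ≤ (‖(1 - p) ξ‖ * ‖x ξ‖) ^ 2 := by
          rw [mul_pow, mul_pow]
          exact le_of_eq h1
        exact (pow_le_pow_iff_left₀ (by positivity) (by positivity) two_ne_zero).1 h3
      rw [div_mul_eq_mul_div, le_div_iff₀ hpξ]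
      exact h2
    obtain ⟨T, hT0, hqT, hTp, hTx⟩ := hTZ N ξ hξ p hpN hp (1 - p) hqN hq hq0 θ hθ
      (‖(1 - p) ξ‖ / ‖p ξ‖) hbd
    have hpT : p * T = 0 := by rw [← hqT, ← mul_assoc, hpq, zero_mul]
    have hTq : T * (1 - p) = 0 := by rw [mul_sub, mul_one, hTp, sub_self]
    have hcom : ∀ y ∈ P, y * T = T * y := by
      rintro y ⟨x, hx, rfl⟩
      have a1 : x * T = 0 := by
        rw [← corner_right hp hx, mul_assoc, hpT, mul_zero]
      have a2 : T * θ x = 0 := by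
        rw [← hθl x hx, ← mul_assoc, hTq, zero_mul]
      rw [add_mul, mul_add, a1, a2, hTx x hx, zero_add, add_zero]
    have h5 := gen_comm hmem (fun y hy => ⟨hcom y hy, hcom (star y) (hPstar y hy)⟩)
    apply hT0
    rw [← hTp, h5, hpT]
  -- the relative commutant of the diagonal
  have hdrc : ∀ y ∈ N, (∀ w ∈ P, y * w = w * y) → ∃ a b : ℂ, y = a • p + b • (1 - p) := by
    intro y hy hyw
    exact hDRC N hN.factor p hpN hp hp0 hp1 θ hθ hns y hy (fun x hx => hyw _ ⟨x, hx, rfl⟩)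
  refine ⟨gen P, hQN, ?_, ?_, ?_⟩
  · -- factor
    intro x hx hxc
    obtain ⟨a, b, hab⟩ := hdrc x (hQN x hx) (fun w hw => hxc w (subset_gen hw))
    by_cases h : a = b
    · refine ⟨a, ?_⟩
      rw [hab, h, ← smul_add]
      congr 1
      abel
    · exfalso
      apply hpQ
      have h1 : x - b • (1 : H →L[ℂ] H) = (a - b) • p := by
        rw [hab, smul_sub, sub_smul]
        abel
      have h2 : p = (a - b)⁻¹ • (x - b • (1 : H →L[ℂ] H)) := by
        rw [h1, smul_smul, inv_mul_cancel₀ (sub_ne_zero.2 h), one_smul]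
      rw [h2]
      exact smul_mem' _ _ (sub_mem hx (smul_mem' _ _ (one_mem _)))
  · -- spectral gap
    intro x hx hC hcomm
    obtain ⟨C, hC⟩ := hC
    obtain ⟨z, hzN, hzc, hz⟩ := hW N ξ hξ hUG P E k m hB U x C hx hC
      (fun y hy => hcomm y (subset_gen hy))
    refine ⟨fun _ => z, fun _ => ⟨hzN, ?_⟩, ⟨‖z‖, fun _ => le_rfl⟩, hz⟩
    intro y hy
    exact gen_comm hy (fun w hw =>
      ⟨(hzc w hw).symm, (hzc (star w) (hPstar w hw)).symm⟩)
  · -- the bicommutant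
    intro heq
    apply hpQ
    have h1 : p ∈ relComm (relComm (gen P : Set (H →L[ℂ] H)) N) N := by
      refine ⟨hpN, ?_⟩
      intro y hy
      obtain ⟨a, b, hab⟩ := hdrc y hy.1 (fun w hw => hy.2 w (subset_gen hw))
      rw [hab, mul_add, add_mul, mul_smul_comm, mul_smul_comm, smul_mul_assoc,
        smul_mul_assoc, hpq, hqp]
    rw [heq] at h1
    exact h1

end Pool.Agent.H99.BC
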